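import Pool.Agent.Lib.MP_acafa7_al.MS.Iface1

/-! Module Comm (Theorem 7.1) of MP_acafa7_al. -/

set_option linter.all false
set_option autoImplicit false

namespace MSG.H81

open Classical

section basics

variable {V : Type} {G : SimpleGraph V}

theorem isW_cat {x y z : V} {l m : List V} (hl : IsW G x y l) (hm : IsW G y z m) :
    IsW G x z (cat l m) := by
  obtain ⟨hlc, hl1, hl2⟩ := hl
  obtain ⟨hmc, hm1, hm2⟩ := hm
  cases m with
  | nil => simp at hm1
  | cons y' m' =>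
    simp only [List.head?_cons, Option.some.injEq] at hm1
    subst hm1
    cases l with
    | nil => simp at hl1
    | cons x' l' =>
      simp only [List.head?_cons, Option.some.injEq] at hl1
      subst hl1
      refine ⟨?_, ?_, ?_⟩
      · unfold cat
        rw [List.tail_cons, List.isChain_append]
        rw [List.isChain_cons] at hmc
        refine ⟨hlc, hmc.2, ?_⟩
        intro u hu v hv
        rw [hl2] at hu
        simp only [Option.mem_def, Option.some.injEq] at hu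
        subst hu
        exact hmc.1 v hv
      · simp [cat]
      · unfold cat
        rw [List.tail_cons, List.getLast?_append]
        cases m' with
        | nil => simp only [List.getLast?_nil, Option.none_or]; simpa using hl2.trans hm2
        | cons c m'' =>
          rw [List.getLast?_cons_cons] at hm2
          rw [hm2]; rfl

theorem isW_reverse {x y : V} {l : List V} (hl : IsW G x y l) : IsW G y x l.reverse := by
  obtain ⟨h1, h2, h3⟩ := hl
  refine ⟨?_, ?_, ?_⟩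
  · rw [List.isChain_reverse]
    exact h1.imp fun a b h => h.symm
  · rw [List.head?_reverse]; exact h3
  · rw [List.getLast?_reverse]; exact h2

theorem isW_map {x y : V} {l : List V} (c : V → V) (hc : ∀ x y, G.Adj x y → G.Adj (c x) (c y))
    (hl : IsW G x y l) : IsW G (c x) (c y) (l.map c) := by
  obtain ⟨h1, h2, h3⟩ := hl
  refine ⟨?_, ?_, ?_⟩
  · rw [List.isChain_map]
    exact h1.imp fun a b h => hc _ _ h
  · rw [List.head?_map, h2]; rfl
  · rw [List.getLast?_map, h3]; rfl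

theorem isW_sq {x y : V} {π s s' : List V} (c : V → V)
    (hc : ∀ x y, G.Adj x y → G.Adj (c x) (c y)) (h1 : IsW G x y π) (h2 : IsW G x (c x) s)
    (h3 : IsW G y (c y) s') : IsW G x x (sq c π s s') :=
  isW_cat (isW_cat (isW_cat h1 h3) (isW_reverse (isW_map c hc h1))) (isW_reverse h2)

theorem map_cat (c : V → V) (l m : List V) : (cat l m).map c = cat (l.map c) (m.map c) := by
  unfold cat
  rw [List.map_append, List.map_tail]

theorem map_sq (c α α' : V → V) (h : ∀ v, c (α v) = α' (c v)) (π s s' : List V) :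
    (sq α π s s').map c = sq α' (π.map c) (s.map c) (s'.map c) := by
  unfold sq
  rw [map_cat, map_cat, map_cat, List.map_reverse, List.map_reverse, List.map_map, List.map_map]
  congr 4
  funext v
  exact h v

theorem hom_trans {Y : Set V} {ω : V → V → V → ZMod 2} {l l' : List V} {e : ZMod 2}
    (h : Hom G Y ω l l' e) : ∀ {l'' : List V} {e' : ZMod 2}, Hom G Y ω l' l'' e' →
    Hom G Y ω l l'' (e + e') := by
  induction h with
  | refl l => intro l'' e' h'; rw [zero_add]; exact h'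
  | step hs _ ih => intro l'' e' h'; rw [add_assoc]; exact Hom.step hs (ih h')

theorem hom_one {Y : Set V} {l l' : List V} (h : Stp G Y (fun _ _ _ => 0) l l' 0) :
    Hom G Y (fun _ _ _ => 0) l l' 0 := by
  have := Hom.step h (Hom.refl l')
  rwa [add_zero] at this

theorem hom_trans0 {Y : Set V} {l l' l'' : List V} (h : Hom G Y (fun _ _ _ => 0) l l' 0)
    (h' : Hom G Y (fun _ _ _ => 0) l' l'' 0) : Hom G Y (fun _ _ _ => 0) l l'' 0 := by
  have := hom_trans h h'
  rwa [add_zero] at this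

theorem hom_of_eqvGen {l l' : List V} (h : Relation.EqvGen (Move G) l l') :
    Hom G Set.univ (fun _ _ _ => 0) l l' 0 ∧ Hom G Set.univ (fun _ _ _ => 0) l' l 0 := by
  induction h with
  | rel l l' h =>
    cases h with
    | back u v x y hxy =>
      exact ⟨hom_one (Stp.ins u v x y hxy (Set.mem_univ _)), hom_one (Stp.del u v x y hxy)⟩
    | tri u v x y z h1 h2 h3 =>
      exact ⟨hom_one (Stp.exp u v x y z h1 h2 h3 (Set.mem_univ _)),
        hom_one (Stp.con u v x y z h1 h2 h3)⟩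
  | refl l => exact ⟨Hom.refl _, Hom.refl _⟩
  | symm l l' _ ih => exact ⟨ih.2, ih.1⟩
  | trans l l' l'' _ _ ih1 ih2 => exact ⟨hom_trans0 ih1.1 ih2.1, hom_trans0 ih2.2 ih1.2⟩

theorem nul_mono (hA : HomAStatement) {S S' : Set V} (hS : S ⊆ S') {l : List V}
    (h : Nul G S l) : Nul G S' l := by
  obtain ⟨h1, x, h2, h3⟩ := h
  exact ⟨fun v hv => hS (h1 v hv), x, h2, (hA V G S _).2.2.2.2.1 _ _ _ S' hS h3⟩

theorem nul_fin (hA : HomAStatement) {S : Set V} {l : List V} (h : Nul G S l) :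
    ∃ N : Set V, N.Finite ∧ N ⊆ S ∧ Nul G N l := by
  obtain ⟨h1, x, h2, h3⟩ := h
  obtain ⟨N, hN1, hN2, hN3⟩ := (hA V G S _).2.2.2.2.2.2.2.1 _ _ _ h3
  refine ⟨(N : Set V), N.finite_toSet, ?_, fun v hv => hN2 v hv, x, h2, hN3⟩
  intro v hv
  rcases hN1 v hv with h | h
  · exact h
  · exact h1 v h

theorem nul_map (hA : HomAStatement) {S : Set V} {l : List V} (c : Equiv.Perm V)
    (hc : ∀ x y, G.Adj (c x) (c y) ↔ G.Adj x y) (h : Nul G S l) :
    Nul G (c '' S) (l.map c) := by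
  obtain ⟨h1, x, h2, h3⟩ := h
  refine ⟨?_, c x, isW_map c (fun x y h => (hc x y).2 h) h2,
    (hA V G S _).2.2.2.2.2.2.2.2.2 c hc _ _ _ h3⟩
  intro v hv
  rw [List.mem_map] at hv
  obtain ⟨u, hu, rfl⟩ := hv
  exact ⟨u, h1 u hu, rfl⟩

theorem nul_of_sc (hA : HomAStatement) (hsc : SimplyConnected G) {x : V} {l : List V}
    (h : IsW G x x l) : ∃ N : Set V, N.Finite ∧ Nul G N l := by
  have h1 : Nul G Set.univ l := ⟨fun v _ => Set.mem_univ v, x, h, (hom_of_eqvGen (hsc x l h)).1⟩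
  obtain ⟨N, h2, _, h3⟩ := nul_fin hA h1
  exact ⟨N, h2, h3⟩

theorem exists_walk (hG : G.Connected) (x y : V) : ∃ l, IsW G x y l := by
  obtain ⟨p⟩ := hG.preconnected x y
  refine ⟨p.support, ?_, ?_, ?_⟩
  · exact p.isChain_adj_support
  · cases p <;> simp
  · rw [List.getLast?_eq_some_getLast (SimpleGraph.Walk.support_ne_nil p),
      SimpleGraph.Walk.getLast_support]

theorem nr_symm {x y : V} (h : Nr G x y) : Nr G y x := by
  rcases h with h | h
  · exact Or.inl h.symm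
  · exact Or.inr h.symm

end basics

section action

variable {V Γ : Type} [Group Γ] [MulAction Γ V]

/-- translate of a list -/
def mp (h : Γ) (l : List V) : List V := l.map (fun v => h • v)

theorem mp_mp (h k : Γ) (l : List V) : mp h (mp k l) = mp (h * k) l := by
  unfold mp
  rw [List.map_map]
  congr 1
  funext v
  simp [mul_smul]

theorem mp_one (l : List V) : mp (1 : Γ) l = l := by
  unfold mp
  simp

theorem mp_reverse (h : Γ) (l : List V) : mp h l.reverse = (mp h l).reverse := by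
  unfold mp
  rw [List.map_reverse]

theorem isW_mp {X : Cx V} (hX : X.IsGeom Γ) (h : Γ) {x y : V} {l : List V}
    (hl : IsW X.G x y l) : IsW X.G (h • x) (h • y) (mp h l) :=
  isW_map _ (fun x y hxy => (hX.adj h x y).2 hxy) hl

theorem nul_mp (hA : HomAStatement) {X : Cx V} (hX : X.IsGeom Γ) (c h h' : Γ)
    (hc : c * h = h' * c) {S : Set V} {π s s' : List V}
    (hn : Nul X.G S (sq (MulAction.toPerm h : Equiv.Perm V) π s s')) :
    Nul X.G ((fun v => c • v) '' S)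
      (sq (MulAction.toPerm h' : Equiv.Perm V) (mp c π) (mp c s) (mp c s')) := by
  have h1 := nul_map hA (MulAction.toPerm c : Equiv.Perm V) (fun x y => hX.adj c x y) hn
  rw [map_sq (⇑(MulAction.toPerm c : Equiv.Perm V)) (⇑(MulAction.toPerm h : Equiv.Perm V))
    (⇑(MulAction.toPerm h' : Equiv.Perm V))] at h1
  · exact h1
  · intro v
    show c • h • v = h' • c • v
    rw [smul_smul, smul_smul, hc]

theorem nr_smul {X : Cx V} (hX : X.IsGeom Γ) (h : Γ) {x y : V} (hn : Nr X.G x y) :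
    Nr X.G (h • x) (h • y) := by
  rcases hn with hn | hn
  · exact Or.inl (by rw [hn])
  · exact Or.inr ((hX.adj h x y).2 hn)

theorem mem_cl {a b : Γ} (h : a * b = b * a) {t : Γ} (ht : t ∈ Subgroup.closure {a, b}) :
    ∃ i j : ℤ, t = a ^ i * b ^ j := by
  have hc : Commute a b := h
  induction ht using Subgroup.closure_induction with
  | mem x hx =>
    simp only [Set.mem_insert_iff, Set.mem_singleton_iff] at hx
    rcases hx with rfl | rfl
    · exact ⟨1, 0, by simp⟩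
    · exact ⟨0, 1, by simp⟩
  | one => exact ⟨0, 0, by simp⟩
  | mul x y _ _ hx hy =>
    obtain ⟨i, j, rfl⟩ := hx
    obtain ⟨i', j', rfl⟩ := hy
    refine ⟨i + i', j + j', ?_⟩
    have := (hc.zpow_zpow i' j).eq
    rw [zpow_add, zpow_add]
    calc a ^ i * b ^ j * (a ^ i' * b ^ j') = a ^ i * (b ^ j * a ^ i') * b ^ j' := by group
      _ = a ^ i * (a ^ i' * b ^ j) * b ^ j' := by rw [this]
      _ = _ := by group
  | inv x _ hx =>
    obtain ⟨i, j, rfl⟩ := hx
    refine ⟨-i, -j, ?_⟩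
    have := (hc.zpow_zpow (-i) (-j)).eq
    rw [mul_inv_rev, ← zpow_neg, ← zpow_neg, this]

theorem cl_mem {a b : Γ} (i j : ℤ) : a ^ i * b ^ j ∈ Subgroup.closure ({a, b} : Set Γ) := by
  apply Subgroup.mul_mem
  · exact Subgroup.zpow_mem _ (Subgroup.subset_closure (by simp)) _
  · exact Subgroup.zpow_mem _ (Subgroup.subset_closure (by simp)) _

theorem mem_orb2 {a b : Γ} (h : a * b = b * a) {S : Set V} {v : V} :
    v ∈ orb2 a b S ↔ ∃ t ∈ Subgroup.closure ({a, b} : Set Γ), ∃ x ∈ S, v = t • x := by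
  constructor
  · rintro ⟨i, j, x, hx, rfl⟩
    exact ⟨_, cl_mem i j, x, hx, rfl⟩
  · rintro ⟨t, ht, x, hx, rfl⟩
    obtain ⟨i, j, rfl⟩ := mem_cl h ht
    exact ⟨i, j, x, hx, rfl⟩

theorem smul_mem_orb2 {a b : Γ} (h : a * b = b * a) {S : Set V} {v : V} {t : Γ}
    (ht : t ∈ Subgroup.closure ({a, b} : Set Γ)) (hv : v ∈ orb2 a b S) :
    t • v ∈ orb2 a b S := by
  rw [mem_orb2 h] at hv ⊢
  obtain ⟨t', ht', x, hx, rfl⟩ := hv
  exact ⟨t * t', Subgroup.mul_mem _ ht ht', x, hx, by rw [mul_smul]⟩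

end action

theorem comm (hT : TubeStatement) (hG : GridStatement) (hP : ProperStatement)
    (hA : HomAStatement) (hB : HomBStatement) : CommStatement := by
  intro V X Γ _ _ hMS hX a b hab hfree
  obtain ⟨x₀⟩ := hMS.conn.nonempty
  obtain ⟨S, w, hS, hx₀, hw1, hw2, hw3⟩ := hG V X Γ hMS hX a b x₀ hab
  obtain ⟨hP1, hP2⟩ := hP V X Γ hX
  set A : Subgroup Γ := Subgroup.closure {a, b} with hAdef
  -- walks indexed by the group
  obtain ⟨W, hW1, hW3⟩ : ∃ W : Γ → List V, (∀ t ∈ A, IsW X.G x₀ (t • x₀) (W t)) ∧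
      ∀ t ∈ A, ∀ t' ∈ A, Nul X.G (orb2 a b S)
        (sq (MulAction.toPerm t' : Equiv.Perm V) (W t) (W t') (mp t (W t'))) := by
    have hex : ∀ t : Γ, ∃ p : ℤ × ℤ, t ∈ A → t = a ^ p.1 * b ^ p.2 := by
      intro t
      by_cases ht : t ∈ A
      · obtain ⟨i, j, h⟩ := mem_cl hab ht
        exact ⟨(i, j), fun _ => h⟩
      · exact ⟨(0, 0), fun h => absurd h ht⟩
    choose p hp using hex
    refine ⟨fun t => w (p t).1 (p t).2, ?_, ?_⟩
    · intro t ht
      have h1 := hw1 (p t).1 (p t).2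
      rw [← hp t ht] at h1
      exact h1
    · intro t ht t' ht'
      have h1 := hw3 (p t).1 (p t).2 (p t').1 (p t').2
      rw [← hp t ht, ← hp t' ht'] at h1
      exact h1
  have hFfin := hP1 S S hS hS
  refine ⟨hFfin.toFinset, ?_⟩
  rintro g ⟨m, hm, hga, hgb⟩
  have hcab : Commute a b := hab
  set a' : Γ := a ^ m with ha'
  set b' : Γ := b ^ m with hb'
  have haA : a' ∈ A := Subgroup.pow_mem _ (Subgroup.subset_closure (by simp)) _
  have hbA : b' ∈ A := Subgroup.pow_mem _ (Subgroup.subset_closure (by simp)) _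
  have hc' : Commute a' b' := hcab.pow_pow m m
  set ρ : Γ := g⁻¹ * a' * g with hρ
  have hgρ : g * ρ = a' * g := by rw [hρ]; group
  have hfa : FreeAut X (MulAction.toPerm a' : Equiv.Perm V) := by
    apply hP2
    intro n hn
    have h1 : a ^ ((m : ℤ) * n) * b ^ (0 : ℤ) = 1 := by
      rw [zpow_zero, mul_one, zpow_mul, zpow_natCast]
      exact hn
    have h2 := (hfree _ _ h1).1
    rcases mul_eq_zero.1 h2 with h3 | h3
    · exfalso; omega
    · exact h3
  obtain ⟨γ, hγ⟩ := exists_walk hMS.conn x₀ (g • x₀)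
  have hadj : ∀ (h : Γ) (x y : V), X.G.Adj x y →
      X.G.Adj ((MulAction.toPerm h : Equiv.Perm V) x) ((MulAction.toPerm h : Equiv.Perm V) y) :=
    fun h x y hxy => (hX.adj h x y).2 hxy
  have hWa : IsW X.G x₀ ((MulAction.toPerm a' : Equiv.Perm V) x₀) (W a') := hW1 a' haA
  have hWρ : IsW X.G (g • x₀) ((MulAction.toPerm a' : Equiv.Perm V) (g • x₀)) (mp g (W ρ)) := by
    have h1 := isW_mp hX g (hW1 ρ hga)
    rw [smul_smul, hgρ, ← smul_smul] at h1
    exact h1
  obtain ⟨Nγ, hNγ, hγ0⟩ := nul_of_sc hA hMS.sc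
    (isW_sq (MulAction.toPerm a' : Equiv.Perm V) (hadj a') hγ hWa hWρ)
  have hBa := hB V X.G (MulAction.toPerm a' : Equiv.Perm V) (fun x y => hX.adj a' x y)
  -- the choice of n
  obtain ⟨n, hn⟩ : ∃ n : ℕ, ∀ k : ℤ, ¬ ∃ x ∈ Nγ, ∃ y ∈ Nγ,
      Nr X.G ((a' ^ k * b' ^ (-(2 * n : ℤ))) • x) y := by
    by_contra hcon
    push_neg at hcon
    choose k hk using hcon
    have hfin := hP1 Nγ Nγ hNγ hNγ
    apply Set.infinite_of_injective_forall_mem (f := fun n : ℕ => a' ^ k n * b' ^ (-(2 * n : ℤ)))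
      ?_ hk hfin
    intro n n' hnn
    simp only at hnn
    have h1 : a ^ ((m : ℤ) * (k n - k n')) * b ^ ((m : ℤ) * (-(2 * n : ℤ) + 2 * n')) = 1 := by
      have h2 : a' ^ (k n - k n') * b' ^ (-(2 * n : ℤ) + 2 * n') = 1 := by
        have h3 := (hc'.zpow_zpow (- k n') (-(2 * n : ℤ) + 2 * n')).eq
        calc a' ^ (k n - k n') * b' ^ (-(2 * n : ℤ) + 2 * n')
            = a' ^ (k n) * (a' ^ (- k n') * b' ^ (-(2 * n : ℤ) + 2 * n')) := by
              rw [← mul_assoc, ← zpow_add]; rfl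
          _ = a' ^ (k n) * (b' ^ (-(2 * n : ℤ) + 2 * n') * a' ^ (- k n')) := by rw [h3]
          _ = (a' ^ k n * b' ^ (-(2 * n : ℤ))) * (b' ^ (2 * n' : ℤ) * a' ^ (- k n')) := by
              rw [zpow_add]; group
          _ = (a' ^ k n' * b' ^ (-(2 * n' : ℤ))) * (b' ^ (2 * n' : ℤ) * a' ^ (- k n')) := by
              rw [hnn]
          _ = 1 := by group
      rw [ha', hb', ← zpow_natCast, ← zpow_natCast, ← zpow_mul, ← zpow_mul] at h2
      exact h2
    have h2 := (hfree _ _ h1).2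
    rcases mul_eq_zero.1 h2 with h3 | h3 <;> omega
  set β : Γ := b' ^ (n : ℤ) with hβ
  have hβA : β ∈ A := Subgroup.zpow_mem _ hbA _
  have hβA' : β⁻¹ ∈ A := Subgroup.inv_mem _ hβA
  have hcβ : Commute a' β := hc'.zpow_right n
  have hcβ' : Commute a' β⁻¹ := hcβ.inv_right
  have hgβ : g⁻¹ * β * g ∈ A := by
    have h1 : g⁻¹ * β * g = (g⁻¹ * b' * g) ^ (n : ℤ) := by
      have := conj_zpow (i := (n : ℤ)) (a := g⁻¹) (b := b')
      rw [inv_inv] at this
      rw [this]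
    rw [h1]
    exact Subgroup.zpow_mem _ hgb _
  set τ : Γ := g⁻¹ * (β⁻¹ * β⁻¹) * g with hτ
  have hτA : τ ∈ A := by
    have h1 : τ = (g⁻¹ * β * g)⁻¹ * (g⁻¹ * β * g)⁻¹ := by rw [hτ]; group
    rw [h1]
    exact Subgroup.mul_mem _ (Subgroup.inv_mem _ hgβ) (Subgroup.inv_mem _ hgβ)
  -- squares
  have e0 : mp (β⁻¹ * g) (W ρ) = mp β⁻¹ (mp g (W ρ)) := (mp_mp _ _ _).symm
  have e2 : mp (β * g) (W ρ) = mp β (mp g (W ρ)) := (mp_mp _ _ _).symm
  have is0 : IsW X.G (β⁻¹ • g • x₀) ((MulAction.toPerm a' : Equiv.Perm V) (β⁻¹ • g • x₀))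
      (mp (β⁻¹ * g) (W ρ)) := by
    have h1 := isW_mp hX β⁻¹ hWρ
    rw [e0]
    have h2 : β⁻¹ • (MulAction.toPerm a' : Equiv.Perm V) (g • x₀) =
        (MulAction.toPerm a' : Equiv.Perm V) (β⁻¹ • g • x₀) := by
      show β⁻¹ • a' • g • x₀ = a' • β⁻¹ • g • x₀
      rw [smul_smul, smul_smul a', hcβ'.eq]
    rw [h2] at h1
    exact h1
  have is2 : IsW X.G (β • g • x₀) ((MulAction.toPerm a' : Equiv.Perm V) (β • g • x₀))
      (mp (β * g) (W ρ)) := by
    have h1 := isW_mp hX β hWρ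
    rw [e2]
    have h2 : β • (MulAction.toPerm a' : Equiv.Perm V) (g • x₀) =
        (MulAction.toPerm a' : Equiv.Perm V) (β • g • x₀) := by
      show β • a' • g • x₀ = a' • β • g • x₀
      rw [smul_smul, smul_smul a', hcβ.eq]
    rw [h2] at h1
    exact h1
  have isb : ∀ c : Γ, Commute a' c → IsW X.G (c • x₀)
      ((MulAction.toPerm a' : Equiv.Perm V) (c • x₀)) (mp c (W a')) := by
    intro c hc
    have h1 := isW_mp hX c hWa
    have h2 : c • (MulAction.toPerm a' : Equiv.Perm V) x₀ =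
        (MulAction.toPerm a' : Equiv.Perm V) (c • x₀) := by
      show c • a' • x₀ = a' • c • x₀
      rw [smul_smul, smul_smul a', hc.eq]
    rw [h2] at h1
    exact h1
  -- square of γ and its reverse
  have hγr : Nul X.G Nγ (sq (MulAction.toPerm a' : Equiv.Perm V) γ.reverse (mp g (W ρ)) (W a')) :=
    (hBa Nγ x₀ (g • x₀) x₀ γ γ.reverse (W a') (mp g (W ρ)) (W a') hγ (isW_reverse hγ)
      hWa hWρ hWa).2.1 hγ0
  have q0a : Nul X.G ((fun v => β⁻¹ • v) '' Nγ ∪ orb2 a b S)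
      (sq (MulAction.toPerm a' : Equiv.Perm V) (mp β⁻¹ γ).reverse (mp (β⁻¹ * g) (W ρ))
        (mp β⁻¹ (W a'))) := by
    have h1 := nul_mp hA hX β⁻¹ a' a' hcβ'.eq.symm hγr
    rw [mp_reverse, ← e0] at h1
    exact nul_mono hA Set.subset_union_left h1
  have q0b : Nul X.G ((fun v => β⁻¹ • v) '' Nγ ∪ orb2 a b S)
      (sq (MulAction.toPerm a' : Equiv.Perm V) (mp β⁻¹ (W β)) (mp β⁻¹ (W a')) (W a')) := by
    have h1 := nul_mp hA hX β⁻¹ a' a' hcβ'.eq.symm (hW3 β hβA a' haA)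
    rw [mp_mp, inv_mul_cancel, mp_one] at h1
    refine nul_mono hA ?_ h1
    rintro v ⟨u, hu, rfl⟩
    exact Or.inr (smul_mem_orb2 hab hβA' hu)
  have iγ0 : IsW X.G (β⁻¹ • g • x₀) (β⁻¹ • x₀) (mp β⁻¹ γ).reverse :=
    isW_reverse (isW_mp hX β⁻¹ hγ)
  have iW0 : IsW X.G (β⁻¹ • x₀) x₀ (mp β⁻¹ (W β)) := by
    have h1 := isW_mp hX β⁻¹ (hW1 β hβA)
    rw [inv_smul_smul] at h1
    exact h1
  have q0 := (hBa _ (β⁻¹ • g • x₀) (β⁻¹ • x₀) x₀ _ _ _ _ _ iγ0 iW0 is0 (isb _ hcβ') hWa).1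
    q0a q0b
  have q1a : Nul X.G (orb2 a b S ∪ (fun v => β • v) '' Nγ)
      (sq (MulAction.toPerm a' : Equiv.Perm V) (W β) (W a') (mp β (W a'))) :=
    nul_mono hA Set.subset_union_left (hW3 β hβA a' haA)
  have q1b : Nul X.G (orb2 a b S ∪ (fun v => β • v) '' Nγ)
      (sq (MulAction.toPerm a' : Equiv.Perm V) (mp β γ) (mp β (W a')) (mp (β * g) (W ρ))) := by
    have h1 := nul_mp hA hX β a' a' hcβ.eq.symm hγ0
    rw [← e2] at h1
    exact nul_mono hA Set.subset_union_right h1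
  have iγ2 : IsW X.G (β • x₀) (β • g • x₀) (mp β γ) := isW_mp hX β hγ
  have q1 := (hBa _ x₀ (β • x₀) (β • g • x₀) _ _ _ _ _ (hW1 β hβA) iγ2 hWa (isb _ hcβ) is2).1
    q1a q1b
  have q2 : Nul X.G ((fun v => (β * g) • v) '' orb2 a b S)
      (sq (MulAction.toPerm a' : Equiv.Perm V) (mp (β * g) (W τ)) (mp (β * g) (W ρ))
        (mp (β⁻¹ * g) (W ρ))) := by
    have h0 : β * g * ρ = a' * (β * g) := by
      rw [mul_assoc, hgρ, ← mul_assoc, ← hcβ.eq, mul_assoc]
    have h1 := nul_mp hA hX (β * g) ρ a' h0 (hW3 τ hτA ρ hga)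
    have h2 : β * g * τ = β⁻¹ * g := by rw [hτ]; group
    rw [mp_mp, h2] at h1
    exact h1
  have iπ2 : IsW X.G (β • g • x₀) (β⁻¹ • g • x₀) (mp (β * g) (W τ)) := by
    have h1 := isW_mp hX (β * g) (hW1 τ hτA)
    have h2 : β * g * τ = β⁻¹ * g := by rw [hτ]; group
    rw [smul_smul, h2, mul_smul, mul_smul] at h1
    exact h1
  obtain ⟨N0, hN0, hN0s, hq0⟩ := nul_fin hA q0
  obtain ⟨N1, hN1, hN1s, hq1⟩ := nul_fin hA q1
  obtain ⟨N2, hN2, hN2s, hq2⟩ := nul_fin hA q2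
  obtain ⟨u, v, z, ⟨p, hu⟩, ⟨q, hv⟩, ⟨r, hz⟩, huv, hvz, huz⟩ :=
    hT V X (MulAction.toPerm a' : Equiv.Perm V) hMS hfa hX.locfin N0 N1 N2 hN0 hN1 hN2
      (β⁻¹ • g • x₀) x₀ (β • g • x₀) _ _ _ _ _ _ (isW_cat iγ0 iW0)
      (isW_cat (hW1 β hβA) iγ2) iπ2 is0 hWa is2 hq0 hq1 hq2
  have hpow : ∀ (k : ℤ) (x : V),
      ((MulAction.toPerm a' : Equiv.Perm V) ^ k) x = (a' ^ k) • x := by
    intro k x
    have h1 : (MulAction.toPerm a' : Equiv.Perm V) ^ k =
        (MulAction.toPermHom Γ V) (a' ^ k) := by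
      rw [map_zpow]; rfl
    rw [h1]; rfl
  rw [hpow] at hu hv hz
  have hu' := hN0s hu
  have hv' := hN1s hv
  have hz' := hN2s hz
  have hak : ∀ k : ℤ, a' ^ k ∈ A := fun k => Subgroup.zpow_mem _ haA k
  -- the end
  have hfin : ∀ x : V, x ∈ orb2 a b S → Nr X.G x z →
      ∃ f ∈ hFfin.toFinset, ∃ s ∈ A, ∃ t ∈ A, g = s * f * t := by
    intro x hx hxz
    rw [mem_orb2 hab] at hx
    obtain ⟨t, ht, y, hy, rfl⟩ := hx
    obtain ⟨z', hz1, hz2⟩ := hz'
    rw [mem_orb2 hab] at hz1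
    obtain ⟨t', ht', y', hy', rfl⟩ := hz1
    simp only at hz2
    have h1 : z = (g * (g⁻¹ * ((a' ^ r)⁻¹ * β) * g * t')) • y' := by
      have h2 : z = (a' ^ r)⁻¹ • (a' ^ r • z) := by rw [inv_smul_smul]
      rw [h2, ← hz2, smul_smul, smul_smul]
      congr 1
      group
    set t'' := g⁻¹ * ((a' ^ r)⁻¹ * β) * g * t' with ht''
    have ht2 : t'' ∈ A := by
      have h2 : t'' = (g⁻¹ * a' * g) ^ (-r) * (g⁻¹ * β * g) * t' := by
        have := conj_zpow (i := -r) (a := g⁻¹) (b := a')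
        rw [inv_inv] at this
        rw [this, ht'', zpow_neg]
        group
      rw [h2]
      exact Subgroup.mul_mem _ (Subgroup.mul_mem _ (Subgroup.zpow_mem _ hga _) hgβ) ht'
    refine ⟨t⁻¹ * g * t'', ?_, t, ht, t''⁻¹, Subgroup.inv_mem _ ht2, by group⟩
    rw [Set.Finite.mem_toFinset]
    refine ⟨y', hy', y, hy, ?_⟩
    have h2 := nr_smul hX t⁻¹ hxz
    rw [inv_smul_smul, h1, smul_smul, ← mul_assoc] at h2
    exact nr_symm h2
  rcases hu' with hu' | hu'
  · rcases hv' with hv' | hv'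
    · apply hfin v ?_ hvz
      have h1 := smul_mem_orb2 hab (Subgroup.inv_mem _ (hak q)) hv'
      rwa [inv_smul_smul] at h1
    · exfalso
      obtain ⟨σ, hσ, hσ1⟩ := hu'
      obtain ⟨σ', hσ', hσ1'⟩ := hv'
      simp only at hσ1 hσ1'
      apply hn (q - p)
      refine ⟨σ, hσ, σ', hσ', ?_⟩
      have h1 := nr_smul hX (β⁻¹ * a' ^ q) huv
      have h2 : (β⁻¹ * a' ^ q) • v = σ' := by
        rw [mul_smul, ← hσ1', inv_smul_smul]
      have h3 : (β⁻¹ * a' ^ q) • u = (a' ^ (q - p) * b' ^ (-(2 * n : ℤ))) • σ := by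
        have h4 : u = (a' ^ p)⁻¹ • (β⁻¹ • σ) := by rw [hσ1, inv_smul_smul]
        rw [h4, smul_smul, smul_smul]
        congr 1
        have h5 : b' ^ (-(2 * n : ℤ)) = β⁻¹ * β⁻¹ := by
          rw [hβ, ← zpow_neg, ← zpow_add]
          congr 1
          ring
        rw [h5]
        have h6 := (hcβ'.zpow_left (q - p)).eq
        calc β⁻¹ * a' ^ q * (a' ^ p)⁻¹ * β⁻¹ = (β⁻¹ * a' ^ (q - p)) * β⁻¹ := by
              rw [zpow_sub]; group
          _ = (a' ^ (q - p) * β⁻¹) * β⁻¹ := by rw [h6]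
          _ = _ := by group
      rw [h2, h3] at h1
      exact h1
  · apply hfin u ?_ huz
    have h1 := smul_mem_orb2 hab (Subgroup.inv_mem _ (hak p)) hu'
    rwa [inv_smul_smul] at h1

end MSG.H81
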